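import Mathlib
import Pool.Agent.Lib.MP_ff06a2_an.Curve

/-!
# Non-uniqueness of Kantorovich potentials for a path connected source support

For the quadratic cost on `ℝ^6` there is a probability measure `ρ`, carried by an arc, such that the
dual transport problem from `ρ` to `ρ` has two optimal pairs which do not differ by a constant.
-/

set_option autoImplicit false

namespace Pool.Agent.Results.MP_ff06a2_an.NonUniqueQuadratic

open MeasureTheory Pool.Agent.Lib.Whitney

/-- Euclidean space of dimension `d`. -/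
abbrev E (d : ℕ) : Type := EuclideanSpace ℝ (Fin d)

/-- The standing hypotheses (H) of the problem. -/
def StandingHyp {d : ℕ} (ρ μ : Measure (E d)) (c : E d → E d → ℝ) : Prop :=
  Bornology.IsBounded μ.support ∧ ContDiff ℝ 1 (fun p : E d × E d => c p.1 p.2) ∧
    ∃ a b : E d → ℝ, UpperSemicontinuous a ∧ UpperSemicontinuous b ∧ Integrable a ρ ∧
      Integrable b μ ∧ ∀ x y, |c x y| ≤ a x + b y

/-- Admissible pairs for the dual problem. -/
def IsAdmissible {d : ℕ} (ρ μ : Measure (E d)) (c : E d → E d → ℝ) (φ ψ : E d → ℝ) : Prop :=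
  Integrable φ ρ ∧ Integrable ψ μ ∧ ∀ x y, φ x + ψ y ≤ c x y

/-- Kantorovich potentials: the admissible pairs of maximal value. -/
def IsPotentialPair {d : ℕ} (ρ μ : Measure (E d)) (c : E d → E d → ℝ) (φ ψ : E d → ℝ) : Prop :=
  IsAdmissible ρ μ c φ ψ ∧ ∀ φ' ψ' : E d → ℝ, IsAdmissible ρ μ c φ' ψ' →
    (∫ x, φ' x ∂ρ) + (∫ y, ψ' y ∂μ) ≤ (∫ x, φ x ∂ρ) + (∫ y, ψ y ∂μ)

/-- Two pairs differ by a constant, almost everywhere. -/
def DifferByConstant {d : ℕ} (ρ μ : Measure (E d)) (φ₀ ψ₀ φ₁ ψ₁ : E d → ℝ) : Prop :=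
  ∃ l : ℝ, (∀ᵐ x ∂ρ, φ₀ x - φ₁ x = l) ∧ (∀ᵐ y ∂μ, ψ₀ y - ψ₁ y = -l)

lemma finrank_space : Module.finrank ℝ (EuclideanSpace ℂ (Fin 3)) = 6 := by
  rw [LinearEquiv.finrank_eq (WithLp.linearEquiv 2 ℝ (Fin 3 → ℂ)), Module.finrank_pi_fintype]
  simp

/-- An isometry of `ℂ^3` onto `ℝ^6`. -/
noncomputable def iso : EuclideanSpace ℂ (Fin 3) ≃ₗᵢ[ℝ] E 6 :=
  ((stdOrthonormalBasis ℝ (EuclideanSpace ℂ (Fin 3))).reindex (finCongr finrank_space)).repr

/-- The arc. -/
noncomputable def arc (t : unitInterval) : E 6 := iso (curve t)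

lemma continuous_arc : Continuous arc :=
  iso.continuous.comp (continuous_curve.comp continuous_subtype_val)

lemma arc_lower (s t : unitInterval) : |(s : ℝ) - t| ≤ 25 * ‖arc s - arc t‖ ^ 2 := by
  unfold arc
  rw [← map_sub, iso.norm_map]
  exact abs_sub_le_curve s.2 t.2

lemma arc_injective : Function.Injective arc := by
  intro s t h
  have := arc_lower s t
  rw [h, sub_self, norm_zero] at this
  norm_num at this
  exact Subtype.ext (sub_eq_zero.mp this)

/-- The measure: the image of the uniform law on `[0,1]`. -/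
noncomputable def rho : Measure (E 6) := Measure.map arc volume

instance : IsProbabilityMeasure rho :=
  Measure.isProbabilityMeasure_map continuous_arc.measurable.aemeasurable

lemma isCompact_arc : IsCompact (Set.range arc) := _root_.isCompact_range continuous_arc

lemma isPathConnected_arc : IsPathConnected (Set.range arc) := by
  have h : PathConnectedSpace unitInterval :=
    isPathConnected_iff_pathConnectedSpace.mp
      ((convex_Icc (0 : ℝ) 1).isPathConnected ⟨0, by simp⟩)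
  exact isPathConnected_range continuous_arc

lemma support_rho : rho.support = Set.range arc := by
  apply Set.Subset.antisymm
  · refine Measure.support_subset_of_isClosed isCompact_arc.isClosed ?_
    rw [mem_ae_iff, rho, Measure.map_apply continuous_arc.measurable
      isCompact_arc.measurableSet.compl]
    have : arc ⁻¹' (Set.range arc)ᶜ = ∅ := by
      ext t
      simp
    rw [this, measure_empty]
  · rintro _ ⟨t, rfl⟩
    rw [Measure.mem_support_iff_forall]
    intro U hU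
    obtain ⟨U', hU'U, hU'o, htU'⟩ := mem_nhds_iff.mp hU
    refine lt_of_lt_of_le ?_ (measure_mono hU'U)
    rw [rho, Measure.map_apply continuous_arc.measurable hU'o.measurableSet]
    obtain ⟨V, hVo, hV⟩ := isOpen_induced_iff.mp (hU'o.preimage continuous_arc)
    have htV : (t : ℝ) ∈ V := by
      have h1 : t ∈ Subtype.val ⁻¹' V := by rw [hV]; exact htU'
      exact h1
    have hcl : (t : ℝ) ∈ closure (Set.Ioo (0 : ℝ) 1) := by
      rw [closure_Ioo (by norm_num)]
      exact t.2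
    have hne : (V ∩ Set.Ioo (0 : ℝ) 1).Nonempty := mem_closure_iff.mp hcl V hVo htV
    rw [← hV, unitInterval.volume_apply]
    refine lt_of_lt_of_le ((hVo.inter isOpen_Ioo).measure_pos volume hne) (measure_mono ?_)
    rintro x ⟨hxV, hx⟩
    exact ⟨⟨x, hx.1.le, hx.2.le⟩, hxV, rfl⟩

lemma exists_extension :
    ∃ F : C(E 6, ℝ), ∀ t : unitInterval, F (arc t) = (t : ℝ) / 25 := by
  have hemb : Topology.IsClosedEmbedding arc := continuous_arc.isClosedEmbedding arc_injective
  obtain ⟨F, hF⟩ := ContinuousMap.exists_extension hemb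
    (⟨fun t : unitInterval => (t : ℝ) / 25, by fun_prop⟩ : C(unitInterval, ℝ))
  exact ⟨F, fun t => congrArg (fun G : C(unitInterval, ℝ) => G t) hF⟩

/-- **Non-uniqueness of Kantorovich potentials.** For the quadratic cost `|x-y|^2` on `ℝ^6` there
is a probability measure `ρ` with compact path connected support such that (H) holds for the
transport problem from `ρ` to `ρ`, and there are two maximising pairs of the dual problem which do
not differ by a constant almost everywhere. -/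
theorem result :
    ∃ ρ : Measure (E 6), IsProbabilityMeasure ρ ∧ IsCompact ρ.support ∧
      IsPathConnected ρ.support ∧ StandingHyp ρ ρ (fun x y => ‖x - y‖ ^ 2) ∧
      ∃ φ₀ ψ₀ φ₁ ψ₁ : E 6 → ℝ,
        IsPotentialPair ρ ρ (fun x y => ‖x - y‖ ^ 2) φ₀ ψ₀ ∧
        IsPotentialPair ρ ρ (fun x y => ‖x - y‖ ^ 2) φ₁ ψ₁ ∧
        ¬ DifferByConstant ρ ρ φ₀ ψ₀ φ₁ ψ₁ := by
  classical
  obtain ⟨F, hF⟩ := exists_extension
  have hA : MeasurableSet (Set.range arc) := isCompact_arc.measurableSet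
  have hbound : ∀ g : E 6 → ℝ, Measurable g → ∀ C : ℝ, (∀ t, ‖g (arc t)‖ ≤ C) →
      Integrable g rho := by
    intro g hg C hC
    rw [rho, integrable_map_measure hg.aestronglyMeasurable continuous_arc.measurable.aemeasurable]
    exact Integrable.of_bound (hg.comp continuous_arc.measurable).aestronglyMeasurable C
      (Filter.Eventually.of_forall hC)
  -- values of admissible pairs
  have hval : ∀ φ ψ : E 6 → ℝ, IsAdmissible rho rho (fun x y => ‖x - y‖ ^ 2) φ ψ →
      (∫ x, φ x ∂rho) + (∫ y, ψ y ∂rho) ≤ 0 := by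
    rintro φ ψ ⟨hφ, hψ, hle⟩
    rw [← integral_add hφ hψ]
    refine integral_nonpos fun x => ?_
    have := hle x x
    simpa using this
  set φ₁ : E 6 → ℝ := (Set.range arc).piecewise F (fun _ => 0) with hφ₁
  set ψ₁ : E 6 → ℝ := (Set.range arc).piecewise (fun y => -F y) (fun _ => -1) with hψ₁
  have hφ₁m : Measurable φ₁ :=
    Measurable.piecewise hA F.continuous.measurable measurable_const
  have hψ₁m : Measurable ψ₁ :=
    Measurable.piecewise hA F.continuous.measurable.neg measurable_const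
  have hφ₁a : ∀ t, φ₁ (arc t) = (t : ℝ) / 25 := fun t => by
    rw [hφ₁, Set.piecewise_eq_of_mem _ _ _ (Set.mem_range_self t), hF]
  have hψ₁a : ∀ t, ψ₁ (arc t) = -((t : ℝ) / 25) := fun t => by
    rw [hψ₁, Set.piecewise_eq_of_mem _ _ _ (Set.mem_range_self t), hF]
  have hφ₁i : Integrable φ₁ rho := hbound φ₁ hφ₁m 1 fun t => by
    rw [hφ₁a, Real.norm_eq_abs, abs_of_nonneg (by linarith [t.2.1] : (0 : ℝ) ≤ (t : ℝ) / 25)]
    linarith [t.2.2]
  have hψ₁i : Integrable ψ₁ rho := hbound ψ₁ hψ₁m 1 fun t => by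
    rw [hψ₁a, norm_neg, Real.norm_eq_abs,
      abs_of_nonneg (by linarith [t.2.1] : (0 : ℝ) ≤ (t : ℝ) / 25)]
    linarith [t.2.2]
  have hadm₀ : IsAdmissible rho rho (fun x y => ‖x - y‖ ^ 2) (fun _ => 0) (fun _ => 0) := by
    refine ⟨integrable_zero _ _ _, integrable_zero _ _ _, fun x y => ?_⟩
    simp only [add_zero]
    positivity
  have hadm₁ : IsAdmissible rho rho (fun x y => ‖x - y‖ ^ 2) φ₁ ψ₁ := by
    refine ⟨hφ₁i, hψ₁i, fun x y => ?_⟩
    have hsq : 0 ≤ ‖x - y‖ ^ 2 := by positivity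
    by_cases hx : x ∈ Set.range arc <;> by_cases hy : y ∈ Set.range arc
    · obtain ⟨s, rfl⟩ := hx
      obtain ⟨t, rfl⟩ := hy
      rw [hφ₁a, hψ₁a]
      have h1 := arc_lower s t
      have h2 := le_abs_self ((s : ℝ) - t)
      change (s : ℝ) / 25 + -((t : ℝ) / 25) ≤ ‖arc s - arc t‖ ^ 2
      linarith
    · obtain ⟨s, rfl⟩ := hx
      rw [hφ₁a, hψ₁, Set.piecewise_eq_of_notMem _ _ _ hy]
      change (s : ℝ) / 25 + -1 ≤ ‖arc s - y‖ ^ 2
      linarith [s.2.2]
    · obtain ⟨t, rfl⟩ := hy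
      rw [hψ₁a, hφ₁, Set.piecewise_eq_of_notMem _ _ _ hx]
      change 0 + -((t : ℝ) / 25) ≤ ‖x - arc t‖ ^ 2
      linarith [t.2.1]
    · rw [hφ₁, hψ₁, Set.piecewise_eq_of_notMem _ _ _ hx, Set.piecewise_eq_of_notMem _ _ _ hy]
      change 0 + -1 ≤ ‖x - y‖ ^ 2
      linarith
  have hval₁ : (∫ x, φ₁ x ∂rho) + (∫ y, ψ₁ y ∂rho) = 0 := by
    rw [← integral_add hφ₁i hψ₁i, rho, integral_map (f := fun a => φ₁ a + ψ₁ a)
      continuous_arc.measurable.aemeasurable (hφ₁m.add hψ₁m).aestronglyMeasurable]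
    simp only [hφ₁a, hψ₁a, add_neg_cancel, integral_zero]
  refine ⟨rho, inferInstance, ?_, ?_, ?_, fun _ => 0, fun _ => 0, φ₁, ψ₁, ?_, ?_, ?_⟩
  · rw [support_rho]; exact isCompact_arc
  · rw [support_rho]; exact isPathConnected_arc
  · refine ⟨?_, ?_, fun x => 2 * ‖x‖ ^ 2, fun y => 2 * ‖y‖ ^ 2, ?_, ?_, ?_, ?_, ?_⟩
    · rw [support_rho]; exact isCompact_arc.isBounded
    · exact (contDiff_fst.sub contDiff_snd).norm_sq ℝ
    · exact (by fun_prop : Continuous fun x : E 6 => 2 * ‖x‖ ^ 2).upperSemicontinuous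
    · exact (by fun_prop : Continuous fun x : E 6 => 2 * ‖x‖ ^ 2).upperSemicontinuous
    · obtain ⟨C, hC⟩ := isCompact_arc.exists_bound_of_continuousOn
        (f := fun x : E 6 => 2 * ‖x‖ ^ 2) (by fun_prop)
      exact hbound _ (by fun_prop) C fun t => hC _ (Set.mem_range_self t)
    · obtain ⟨C, hC⟩ := isCompact_arc.exists_bound_of_continuousOn
        (f := fun x : E 6 => 2 * ‖x‖ ^ 2) (by fun_prop)
      exact hbound _ (by fun_prop) C fun t => hC _ (Set.mem_range_self t)
    · intro x y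
      rw [abs_of_nonneg (by positivity)]
      have h1 : ‖x - y‖ ≤ ‖x‖ + ‖y‖ := norm_sub_le x y
      have h2 : ‖x - y‖ ^ 2 ≤ (‖x‖ + ‖y‖) ^ 2 := by gcongr
      nlinarith [sq_nonneg (‖x‖ - ‖y‖)]
  · refine ⟨hadm₀, fun φ ψ h => ?_⟩
    simpa using hval φ ψ h
  · refine ⟨hadm₁, fun φ ψ h => ?_⟩
    rw [hval₁]
    exact hval φ ψ h
  · rintro ⟨l, hl, -⟩
    have h1 : ∀ᵐ t : unitInterval, 0 - φ₁ (arc t) = l :=
      ae_of_ae_map continuous_arc.measurable.aemeasurable hl
    obtain ⟨t₀, ht₀⟩ := h1.exists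
    have h2 : ∀ᵐ t : unitInterval, t ≠ t₀ := by
      rw [ae_iff]
      simp
    obtain ⟨t, ht, htne⟩ := (h1.and h2).exists
    rw [hφ₁a] at ht ht₀
    apply htne
    apply Subtype.ext
    linarith

end Pool.Agent.Results.MP_ff06a2_an.NonUniqueQuadratic
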